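import Pool.Agent.Y333.RP.Gap

/-!
# Extensions of gap-free graphs with the same regularity: the powers have the same linearity

Let `G` be a gap-free graph (`im(G) = 1`) and `G'` a graph with one more vertex whose restriction to
the old vertices is `G`, such that `im(G') = im(G)` and `reg I(G') = reg I(G)`. Then for every
`k ≥ 1`: `reg I(G)^k = 2 k` if and only if `reg I(G')^k = 2 k`.

Definitions used (files `Pool.Agent.H677R3.RegKoszul` and `RegDeg`):
* `edgeIdeal K G` is the ideal of `K[x_0,…,x_{n-1}]` spanned by the `x_i x_j`, `i` adjacent to `j`;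
* `koszulD` is the Koszul differential of the variables; a Koszul chain assigns to every finite
  set `T` of variables the coefficient of `e_T`;
* `TorNe J i e`: the Koszul homology `H_i(x_1,…,x_n; J) = Tor_i(J, K)` is nonzero in internal
  degree `i + e`;
* `IsReg J r`: `r` is the greatest `e` such that `TorNe J i e` for some `i`, i.e. `reg J = r`.
-/

set_option autoImplicit false

universe u

namespace Pool.Agent.Results.MP_3df448_al.SameIndex

open Pool.Agent.H677R3.EdgeReg Pool.Agent.H677R3.Ab Pool.Agent.Y333.RP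

/-- `M` is an induced matching of `G`: a set of edges, any two of which have no common vertex and are
not joined by an edge of `G`. -/
def IndMatching {n : ℕ} (G : SimpleGraph (Fin n)) (M : Finset (Fin n × Fin n)) : Prop :=
  (∀ e ∈ M, G.Adj e.1 e.2) ∧ ∀ e ∈ M, ∀ f ∈ M, e ≠ f →
    (e.1 ≠ f.1 ∧ e.1 ≠ f.2 ∧ e.2 ≠ f.1 ∧ e.2 ≠ f.2) ∧
    ¬ G.Adj e.1 f.1 ∧ ¬ G.Adj e.1 f.2 ∧ ¬ G.Adj e.2 f.1 ∧ ¬ G.Adj e.2 f.2

/-- `im(G) = s`: the largest size of an induced matching of `G` is `s`. -/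
def IsIm {n : ℕ} (G : SimpleGraph (Fin n)) (s : ℕ) : Prop :=
  IsGreatest {t : ℕ | ∃ M, IndMatching G M ∧ M.card = t} s

theorem gapFree_of_im {n : ℕ} {G : SimpleGraph (Fin n)} (h : IsIm G 1) : GapFree G := by
  intro a b c d hab hcd h1 h2 h3 h4
  by_contra hcon
  push Not at hcon
  obtain ⟨g1, g2, g3, g4⟩ := hcon
  have hne : ((a, b) : Fin n × Fin n) ≠ (c, d) := fun he => h1 (congrArg Prod.fst he)
  have h5 : (2 : ℕ) ≤ 1 := by
    apply h.2
    refine ⟨{(a, b), (c, d)}, ⟨?_, ?_⟩, Finset.card_pair hne⟩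
    · intro e he
      rw [Finset.mem_insert, Finset.mem_singleton] at he
      rcases he with rfl | rfl
      · exact hab
      · exact hcd
    · intro e he f hf hef
      rw [Finset.mem_insert, Finset.mem_singleton] at he hf
      rcases he with rfl | rfl <;> rcases hf with rfl | rfl
      · exact absurd rfl hef
      · exact ⟨⟨h1, h2, h3, h4⟩, g1, g2, g3, g4⟩
      · exact ⟨⟨h1.symm, h3.symm, h2.symm, h4.symm⟩, fun h => g1 h.symm, fun h => g3 h.symm,
          fun h => g2 h.symm, fun h => g4 h.symm⟩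
      · exact absurd rfl hef
  omega

theorem edge_of_im {n : ℕ} {G : SimpleGraph (Fin n)} (h : IsIm G 1) : ∃ u v, G.Adj u v := by
  obtain ⟨M, hM, hc⟩ := h.1
  obtain ⟨e, he⟩ := Finset.card_pos.1 (by rw [hc]; exact one_pos)
  exact ⟨e.1, e.2, hM.1 e he⟩

theorem isReg_unique {n : ℕ} {K : Type u} [Field K] {J : Ideal (MvPolynomial (Fin n) K)} {r s : ℕ}
    (h1 : IsReg J r) (h2 : IsReg J s) : r = s :=
  IsGreatest.unique h1 h2

/-- for a gap-free graph, `reg I(G)^k = 2 k` exactly for `k ≥ reg I(G) - 1` -/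
theorem linear_iff {n : ℕ} (K : Type u) [Field K] (G : SimpleGraph (Fin n)) (hG : IsIm G 1) :
    ∃ r : ℕ, IsReg (edgeIdeal K G) r ∧
      ∀ k : ℕ, 1 ≤ k → (IsReg (edgeIdeal K G ^ k) (2 * k) ↔ r ≤ k + 1) := by
  obtain ⟨r, σ, h1, h2, h3, h4⟩ := formula' K G (edge_of_im hG)
  have hσ : σ = 1 := (sigma_eq_one_iff K G σ h2).2 (gapFree_of_im hG)
  subst hσ
  refine ⟨r, h1, fun k hk => ?_⟩
  have h5 := h4 k hk
  constructor
  · intro h
    have h6 := isReg_unique h h5
    omega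
  · intro h
    have h6 : max (r + k - 1) (2 * k - 1 + 1) = 2 * k := by omega
    rw [h6] at h5
    exact h5

/-- **Main result.** `K` is any field, `G` a gap-free graph, `G'` an `(im, reg)`-invariant extension of
`G`. (1) If `c` is an integer with `reg I(G)^k = 2 k` for all `k ≥ c`, `k ≥ 1`, then
`reg I(G')^k = 2 k` for all `k ≥ c`, `k ≥ 1`. (2) For every `k ≥ 1`, `reg I(G)^k = 2 k` if and only if
`reg I(G')^k = 2 k`. -/
theorem result (K : Type u) [Field K] (n : ℕ) (G : SimpleGraph (Fin n))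
    (G' : SimpleGraph (Fin (n + 1))) (hG : IsIm G 1)
    (_hext : ∀ i j : Fin n, G'.Adj i.castSucc j.castSucc ↔ G.Adj i j)
    (him : ∀ s : ℕ, IsIm G s ↔ IsIm G' s)
    (hreg : ∀ r : ℕ, IsReg (edgeIdeal K G) r ↔ IsReg (edgeIdeal K G') r) :
    (∀ c : ℤ, (∀ k : ℕ, 1 ≤ k → c ≤ k → IsReg (edgeIdeal K G ^ k) (2 * k)) →
      ∀ k : ℕ, 1 ≤ k → c ≤ k → IsReg (edgeIdeal K G' ^ k) (2 * k)) ∧
    ∀ k : ℕ, 1 ≤ k → (IsReg (edgeIdeal K G ^ k) (2 * k) ↔ IsReg (edgeIdeal K G' ^ k) (2 * k)) := by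
  obtain ⟨r, h1, h2⟩ := linear_iff K G hG
  obtain ⟨s, h3, h4⟩ := linear_iff K G' ((him 1).1 hG)
  have hrs : r = s := isReg_unique ((hreg r).1 h1) h3
  subst hrs
  have key : ∀ k : ℕ, 1 ≤ k →
      (IsReg (edgeIdeal K G ^ k) (2 * k) ↔ IsReg (edgeIdeal K G' ^ k) (2 * k)) :=
    fun k hk => (h2 k hk).trans (h4 k hk).symm
  exact ⟨fun c hc k hk hck => (key k hk).1 (hc k hk hck), key⟩

end Pool.Agent.Results.MP_3df448_al.SameIndex
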